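import Pool.Agent.Q294.Perturbed.Proof

/-!
# The local limit law fails for the locally perturbed heavy-tailed planar walk
-/

namespace Pool.Agent.Results.MP_0c5cb5_pr.NoLocalLimit

open Q294.Perturbed Filter Topology

/-- For every `C > 0` the error `sup_x |n log n P(S_n = x) - g(x / √(n log n))|`, `g` the density of
`C W(1)`, does not tend to `0`; moreover, of any two consecutive errors at large times one is
bounded below by a positive constant. -/
theorem result (C : ℝ) (hC : 0 < C) :
    ¬ Tendsto (err C) atTop (𝓝 0) ∧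
    ∃ δ : ENNReal, 0 < δ ∧ ∀ᶠ n in atTop, δ ≤ err C n ∨ δ ≤ err C (n + 1) := by
  refine ⟨not_tendsto hC, _, ?_, eventually_err hC⟩
  have h1 := gauss_zero_pos hC
  have h2 : 0 < 1 / 4 - c := by linarith [c_lt]
  rw [ENNReal.ofReal_pos]
  positivity

end Pool.Agent.Results.MP_0c5cb5_pr.NoLocalLimit
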